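import Mathlib
import Pool.Agent.N290.RL.Stm

/-!
# Project RL (helper290), part SG: the bounded recursion, general weights (helper617)
-/

set_option autoImplicit false

open Complex MeasureTheory Set Filter Topology

namespace Pool.Agent.N617.RL

open Pool.Agent.N290.RJ Pool.Agent.N290.RK Pool.Agent.N290.RL

variable {d : ℕ}

/-- the numerical step -/
theorem num_g {C₁ a L u u' s δ E E' D0 D1 p dP : ℝ} (hC : 0 < C₁)
    (ha : 0 ≤ a) (hL : 0 ≤ L) (hu : 0 < u) (hu' : 0 < u') (hu1 : u ≤ 1) (hu1' : u' ≤ 1)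
    (hs0 : 0 ≤ s) (h2u : u' ≤ 2 * u) (hus : u ^ 2 * (1 + s / 32) ≤ u' ^ 2)
    (hd1 : δ ≤ s) (hd2 : δ ≤ 2 * (a / u) * s)
    (hD00 : 0 ≤ D0) (hD10 : 0 ≤ D1)
    (hD0 : D0 ≤ 3 / 2 * a * u ^ 7 * L) (hD1 : D1 ≤ 3 / 2 * a * u' ^ 7 * L)
    (hp0 : 0 ≤ p) (hp : p ≤ C₁ * a * u' ^ 3 * L)
    (hdP : dP ≤ C₁ * a * (s / u))
    (hE0 : 0 ≤ E) (hE : E ≤ 6016 * C₁ * (a ^ 2 * L) * u ^ 2)
    (hE' : E' ≤ (1 + δ / 64) * E + δ * (C₁ * (D0 + D1) + 4 * p) + dP * D0) :
    E' ≤ 6016 * C₁ * (a ^ 2 * L) * u' ^ 2 := by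
  have haL : 0 ≤ a * L := mul_nonneg ha hL
  have hu3 : u' ^ 3 ≤ 8 * u ^ 3 := by
    calc u' ^ 3 ≤ (2 * u) ^ 3 := pow_le_pow_left₀ hu'.le h2u 3
      _ = 8 * u ^ 3 := by ring
  have h7 : ∀ x : ℝ, 0 < x → x ≤ 1 → x ^ 7 ≤ x ^ 3 := fun x h0 h1 =>
    pow_le_pow_of_le_one h0.le h1 (by norm_num)
  have hD0' : D0 ≤ 3 / 2 * (a * L * u ^ 3) := by
    calc D0 ≤ 3 / 2 * a * u ^ 7 * L := hD0
      _ = 3 / 2 * (a * L) * u ^ 7 := by ring
      _ ≤ 3 / 2 * (a * L) * u ^ 3 := mul_le_mul_of_nonneg_left (h7 u hu hu1) (by positivity)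
      _ = _ := by ring
  have hD1' : D1 ≤ 12 * (a * L * u ^ 3) := by
    calc D1 ≤ 3 / 2 * a * u' ^ 7 * L := hD1
      _ = 3 / 2 * (a * L) * u' ^ 7 := by ring
      _ ≤ 3 / 2 * (a * L) * (8 * u ^ 3) :=
        mul_le_mul_of_nonneg_left ((h7 u' hu' hu1').trans hu3) (by positivity)
      _ = _ := by ring
  have hp' : p ≤ 8 * (C₁ * (a * L * u ^ 3)) := by
    calc p ≤ C₁ * a * u' ^ 3 * L := hp
      _ = C₁ * (a * L) * u' ^ 3 := by ring
      _ ≤ C₁ * (a * L) * (8 * u ^ 3) := mul_le_mul_of_nonneg_left hu3 (by positivity)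
      _ = _ := by ring
  have hY : 0 ≤ a * L * u ^ 3 := by positivity
  have hsum : C₁ * (D0 + D1) + 4 * p ≤ 46 * (C₁ * (a * L * u ^ 3)) := by
    have e1 : C₁ * (D0 + D1) ≤ C₁ * (14 * (a * L * u ^ 3)) :=
      mul_le_mul_of_nonneg_left (by linarith) hC.le
    linarith
  have hsum0 : 0 ≤ C₁ * (D0 + D1) + 4 * p := by positivity
  have hT2 : δ * (C₁ * (D0 + D1) + 4 * p) ≤ 92 * (C₁ * (a ^ 2 * L) * (s * u ^ 2)) := by
    calc δ * (C₁ * (D0 + D1) + 4 * p) ≤ (2 * (a / u) * s) * (46 * (C₁ * (a * L * u ^ 3))) :=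
          mul_le_mul hd2 hsum hsum0 (by positivity)
      _ = _ := by field_simp; ring
  have hT3 : dP * D0 ≤ 3 / 2 * (C₁ * (a ^ 2 * L) * (s * u ^ 2)) := by
    calc dP * D0 ≤ (C₁ * a * (s / u)) * (3 / 2 * (a * L * u ^ 3)) :=
          mul_le_mul hdP hD0' hD00 (by positivity)
      _ = _ := by field_simp
  have hT1 : (1 + δ / 64) * E ≤ (1 + s / 64) * (6016 * C₁ * (a ^ 2 * L) * u ^ 2) :=
    mul_le_mul (by linarith) hE hE0 (by positivity)
  have hW : 0 ≤ C₁ * (a ^ 2 * L) * (s * u ^ 2) := by positivity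
  have hfin : 6016 * C₁ * (a ^ 2 * L) * (u ^ 2 * (1 + s / 32)) ≤
      6016 * C₁ * (a ^ 2 * L) * u' ^ 2 := mul_le_mul_of_nonneg_left hus (by positivity)
  have e7 : 6016 * C₁ * (a ^ 2 * L) * (u ^ 2 * (1 + s / 32)) =
      6016 * C₁ * (a ^ 2 * L) * u ^ 2 + 188 * (C₁ * (a ^ 2 * L) * (s * u ^ 2)) := by ring
  have e8 : (1 + s / 64) * (6016 * C₁ * (a ^ 2 * L) * u ^ 2) =
      6016 * C₁ * (a ^ 2 * L) * u ^ 2 + 94 * (C₁ * (a ^ 2 * L) * (s * u ^ 2)) := by ring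
  rw [e7] at hfin
  rw [e8] at hT1
  linarith

/-- the recursion -/
noncomputable def vg (C : ℝ) (f : E d → ℂ) (P : ℕ → E d → ℂ) : ℕ → (E d → ℂ)
  | 0 => fun _ => 0
  | j + 1 => fun w => (vg C f P j w + P (j + 1) w *
      starRingEnd ℂ (f (rad (j + 1) • w) - f (rad j • w))) /
      (1 + starRingEnd ℂ (P (j + 1) w *
        starRingEnd ℂ (f (rad (j + 1) • w) - f (rad j • w))) * vg C f P j w / (256 * C) ^ 2)

theorem SG_of (d : ℕ) (h1 : S1 d) (hN : YN d) (hF : YF d) : SG d := by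
  intro C₁ hC
  refine ⟨6016 * C₁, by positivity, ?_⟩
  intro f a Ψ hf hf1 haw hfa hΨ hΨb
  have ha0 : ∀ z ∈ B d, 0 ≤ a z := fun z hz => (haw.a2 z hz).1.le
  have hΨd : ∀ k, ∀ z ∈ B d, DifferentiableAt ℝ (Ψ k) z := fun k z hz =>
    ((hΨ k).differentiableOn (by norm_num)).differentiableAt (B_open.mem_nhds hz)
  have key : ∀ k : ℕ, ContDiffOn ℝ 1 (vg C₁ f Ψ k) (B d) ∧ ∀ z ∈ (B d),
      ‖vg C₁ f Ψ k z‖ ≤ 256 * C₁ ∧
      ∀ ξ, ‖db (vg C₁ f Ψ k) z ξ - Ψ k z * starRingEnd ℂ (xj f k z ξ)‖ ≤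
        6016 * C₁ * (a z ^ 2 * len z ξ) * ww z k ^ 2 := by
    intro k
    induction k with
    | zero =>
      refine ⟨contDiffOn_const, fun z hz => ⟨?_, fun ξ => ?_⟩⟩
      · simp only [vg, norm_zero]; positivity
      · have h4 : rad 0 = 0 := by simp [rad]
        have h5 : xj f 0 z ξ = 0 := by
          unfold xj
          rw [h4, zero_smul, zero_smul, map_zero]
        have h6 : db (vg C₁ f Ψ 0) z ξ = 0 := by
          simp only [vg, db]
          simp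
        rw [h5, h6, map_zero, mul_zero, sub_zero, norm_zero]
        have := len_nonneg z ξ
        positivity
    | succ k ih =>
      obtain ⟨ih1, ih2⟩ := ih
      have hr0 : 0 ≤ rad k := rad_nonneg k
      have hr1 : rad k ≤ 1 := (rad_lt_one k).le
      have hr0' : 0 ≤ rad (k + 1) := rad_nonneg (k + 1)
      have hr1' : rad (k + 1) ≤ 1 := (rad_lt_one (k + 1)).le
      have hx : ∀ j : ℕ, ∀ z ∈ B d, ∀ ξ,
          fderiv ℂ (fun w => f (rad j • w)) z ξ = xj f j z ξ := by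
        intro j z hz ξ
        exact dil_fderiv (da_hol hf (smul_mem_B hz (rad_nonneg j) (rad_lt_one j).le)) ξ
      have hstep := fun (z : E d) (hz : z ∈ (B d)) (p : ℝ) (ξ : E d)
        (hp1 : ‖fderiv ℝ (Ψ (k + 1)) z ξ‖ ≤ p)
        (hp2 : ‖fderiv ℝ (Ψ (k + 1)) z (I • ξ)‖ ≤ p) =>
        h1 C₁ p (vg C₁ f Ψ k) (Ψ k) (Ψ (k + 1)) (fun w => f (rad k • w))
          (fun w => f (rad (k + 1) • w)) z ξ hC
          ((ih1.differentiableOn (by norm_num)).differentiableAt (B_open.mem_nhds hz))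
          (hΨd (k + 1) z hz)
          (dil_hasFDerivAt (da_hol hf (smul_mem_B hz hr0 hr1))).differentiableAt
          (dil_hasFDerivAt (da_hol hf (smul_mem_B hz hr0' hr1'))).differentiableAt
          (ih2 z hz).1 (hΨb k z hz).1 (hΨb (k + 1) z hz).1
          (by
            refine (norm_sub_le _ _).trans ?_
            have := hf1 _ (smul_mem_B hz hr0 hr1)
            have := hf1 _ (smul_mem_B hz hr0' hr1')
            linarith) hp1 hp2
          (fun w => Ψ (k + 1) w * starRingEnd ℂ (f (rad (k + 1) • w) - f (rad k • w)))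
          (vg C₁ f Ψ (k + 1)) (fun w => rfl) (fun w => rfl)
      refine ⟨?_, fun z hz => ⟨?_, fun ξ => ?_⟩⟩
      · -- regularity
        have hc : ContDiffOn ℝ 1 (fun w => Ψ (k + 1) w *
            starRingEnd ℂ (f (rad (k + 1) • w) - f (rad k • w))) (B d) := by
          refine (hΨ (k + 1)).mul ?_
          exact (Complex.conjCLE.contDiff.comp_contDiffOn
            ((cd_dil (cd_hol hf) hr0' hr1').sub (cd_dil (cd_hol hf) hr0 hr1)))
        have hc2 : ContDiffOn ℝ 1 (fun w => starRingEnd ℂ (Ψ (k + 1) w *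
            starRingEnd ℂ (f (rad (k + 1) • w) - f (rad k • w)))) (B d) :=
          Complex.conjCLE.contDiff.comp_contDiffOn hc
        have hden : ContDiffOn ℝ 1 (fun w => 1 + starRingEnd ℂ (Ψ (k + 1) w *
            starRingEnd ℂ (f (rad (k + 1) • w) - f (rad k • w))) * vg C₁ f Ψ k w /
              (256 * C₁) ^ 2) (B d) :=
          ContDiffOn.add contDiffOn_const ((hc2.mul ih1).div_const _)
        have hinv := hden.inv (fun z hz =>
          (hstep z hz _ 0 (le_max_left _ _) (le_max_right _ _)).2.1)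
        refine ((ih1.add hc).mul hinv).congr fun w _ => ?_
        simp only [vg, div_eq_mul_inv]
        rfl
      · exact (hstep z hz _ 0 (le_max_left _ _) (le_max_right _ _)).1
      · -- the estimate
        have hL := len_nonneg z ξ
        obtain ⟨hs0, hs1, hu0, hu1, -, h2u, hpow, -⟩ := hN z hz k
        obtain ⟨-, -, hu0', hu1', -, -, -, -⟩ := hN z hz (k + 1)
        obtain ⟨-, hd2, hd1, hX⟩ := hF a f haw hf hfa k z hz
        obtain ⟨-, -, -, hX'⟩ := hF a f haw hf hfa (k + 1) z hz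
        have hP : ∀ η : E d, len z η = len z ξ → ‖fderiv ℝ (Ψ (k + 1)) z η‖ ≤
            C₁ * a z * ww z (k + 1) ^ 3 * len z ξ := by
          intro η hη
          have e1 := (hΨb (k + 1) z hz).2.2 η
          rwa [hη] at e1
        have hmain := (hstep z hz _ ξ (hP ξ rfl) (hP (I • ξ) (len_I z ξ))).2.2.1
        rw [hx k z hz ξ, hx (k + 1) z hz ξ] at hmain
        have hdP : ‖Ψ k z - Ψ (k + 1) z‖ ≤ C₁ * a z * (st k z / ww z k) := by
          rw [norm_sub_rev]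
          exact (hΨb k z hz).2.1
        have ha := ha0 z hz
        exact num_g hC ha hL hu0 hu0' hu1 hu1' hs0 h2u (hpow 2 (by norm_num)) hd1 hd2
          (norm_nonneg _) (norm_nonneg _) (hX ξ).1 (hX' ξ).1 (by positivity) le_rfl hdP
          (norm_nonneg _) ((ih2 z hz).2 ξ) hmain
  intro k
  obtain ⟨hk1, hk2⟩ := key k
  refine ⟨vg C₁ f Ψ k, hk1, fun z hz => ⟨(hk2 z hz).1.trans (by linarith), fun ξ => ?_⟩⟩
  have h5 := (hk2 z hz).2 ξ
  obtain ⟨-, -, hu0, hu1, -, -, -, -⟩ := hN z hz k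
  refine h5.trans ?_
  have h8 : ww z k ^ 2 ≤ 1 := pow_le_one₀ hu0.le hu1
  have h9 : 0 ≤ 6016 * C₁ * (a z ^ 2 * len z ξ) :=
    mul_nonneg (by positivity) (mul_nonneg (sq_nonneg _) (len_nonneg _ _))
  calc _ ≤ 6016 * C₁ * (a z ^ 2 * len z ξ) * 1 := mul_le_mul_of_nonneg_left h8 h9
    _ = _ := by ring

end Pool.Agent.N617.RL
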